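import Pool.Agent.Q5.GoodTri.Example2

set_option autoImplicit false

namespace Pool.Agent.Results.MP_f37e0b_al.Independence

open CategoryTheory Limits Pretriangulated Triangulated Q5.GoodTri

/-- There is a triangulated category with a Verdier good map of exact triangles which is not good and
a good map of exact triangles which is not Verdier good. -/
theorem result : ∃ (C : Type 1) (_ : Category.{1} C) (_ : HasZeroObject C) (_ : HasShift C ℤ)
    (_ : Preadditive C) (_ : ∀ n : ℤ, (shiftFunctor C n).Additive) (_ : Pretriangulated C)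
    (_ : IsTriangulated C),
    (∃ (T T' : Triangle C) (hT : T ∈ distTriang C) (hT' : T' ∈ distTriang C) (φ : T ⟶ T'),
      IsVerdierGood hT hT' φ ∧ ¬ IsGood φ) ∧
    (∃ (T T' : Triangle C) (hT : T ∈ distTriang C) (hT' : T' ∈ distTriang C) (φ : T ⟶ T'),
      IsGood φ ∧ ¬ IsVerdierGood hT hT' φ) := by
  refine ⟨DAb, inferInstance, inferInstance, inferInstance, inferInstance, inferInstance,
    inferInstance, inferInstance, ?_, ?_⟩
  · obtain ⟨Z, v, w, hT⟩ := distinguished_cocone_triangle (dg.map uAb)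
    obtain ⟨Z', v', w', hT'⟩ := distinguished_cocone_triangle (dg.map gAb)
    obtain ⟨a, c₂, c₃, _, h0, h1⟩ := exists_map hyp hT hT'
    exact ⟨_, _, hT, hT', Triangle.homMk _ _ (dg.map uAb) (dg.map gAb) (w ≫ a) rfl c₂ c₃, h1,
      not_good hT hT' hyp.hom h0⟩
  · obtain ⟨Z, v, w, hT⟩ := distinguished_cocone_triangle (dg.map uA)
    obtain ⟨Z', v', w', hT'⟩ := distinguished_cocone_triangle (dg.map uA')
    obtain ⟨h, h₁, h₂, h₃, h₄⟩ := exists_good_not_verdierGood twistHyp hT hT'
    exact ⟨_, _, hT, hT', Triangle.homMk _ _ (dg.map fA) (dg.map gA) h twistHyp.comm h₁ h₂, h₃, h₄⟩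

end Pool.Agent.Results.MP_f37e0b_al.Independence
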